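import Pool.Agent.Work.MP_8eaa9c_co.Num

/-!
Permutations from schemes: counting.
-/

namespace Pool.Agent.Work.MP_8eaa9c_co

open Finset

/-- Ranks of an injective key. -/
lemma exists_rank {n : ℕ} {γ : Type} [LinearOrder γ] (key : Fin n → γ)
    (hk : Function.Injective key) :
    ∃ π : Equiv.Perm (Fin n), ∀ x y, π x < π y ↔ key x < key y := by
  classical
  let S : Finset γ := univ.image key
  have hS : S.card = n := by
    rw [card_image_of_injective _ hk, card_univ, Fintype.card_fin]
  let iso := S.orderIsoOfFin hS
  let f : Fin n → Fin n := fun x => iso.symm ⟨key x, mem_image_of_mem _ (mem_univ x)⟩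
  have hf : ∀ x y, f x < f y ↔ key x < key y := by
    intro x y
    simp only [f, OrderIso.lt_iff_lt, Subtype.mk_lt_mk]
  have hinj : Function.Injective f := by
    intro x y h
    have := iso.symm.injective h
    exact hk (Subtype.mk.inj this)
  refine ⟨Equiv.ofBijective f (Finite.injective_iff_bijective.1 hinj), ?_⟩
  intro x y
  exact hf x y

/-- The number of choice functions is bounded by the number of rank permutations times an
exponential. -/
lemma count_le {n k I : ℕ} {β : Type} [LinearOrder β] (blocks : Finset β)
    (hI : blocks.card ≤ I) (S : Fin n → Finset β) (hS : ∀ x, S x ⊆ blocks)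
    (hk : ∀ x, (S x).card = k) (ρ : (Fin n → β) → Equiv.Perm (Fin n))
    (hρ : ∀ b x y, ρ b x < ρ b y ↔ toLex (b x, x) < toLex (b y, y)) :
    k ^ n ≤ ((Fintype.piFinset S).image ρ).card * 2 ^ (n + I) := by
  classical
  let idx : β → ℕ := fun c => (blocks.filter (fun d => d < c)).card
  have idx_lt : ∀ c ∈ blocks, idx c < I := by
    intro c hc
    refine lt_of_lt_of_le ?_ hI
    apply card_lt_card
    rw [filter_ssubset]
    exact ⟨c, hc, lt_irrefl c⟩
  have idx_le : ∀ c d, c ≤ d → idx c ≤ idx d := by
    intro c d h
    apply card_le_card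
    intro x hx
    rw [mem_filter] at hx ⊢
    exact ⟨hx.1, lt_of_lt_of_le hx.2 h⟩
  have idx_mono : ∀ c ∈ blocks, ∀ d, c < d → idx c < idx d := by
    intro c hc d h
    apply card_lt_card
    rw [ssubset_iff_of_subset]
    · refine ⟨c, by rw [mem_filter]; exact ⟨hc, h⟩, ?_⟩
      rw [mem_filter]
      exact fun h => lt_irrefl c h.2
    · intro x hx
      rw [mem_filter] at hx ⊢
      exact ⟨hx.1, hx.2.trans h⟩
  have idx_inj : ∀ c ∈ blocks, ∀ d ∈ blocks, idx c = idx d → c = d := by
    intro c hc d hd h
    rcases lt_trichotomy c d with h1 | h1 | h1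
    · exact absurd h (idx_mono c hc d h1).ne
    · exact h1
    · exact absurd h (idx_mono d hd c h1).ne'
  let g : (Fin n → β) → Fin n → ℕ := fun b r => (r : ℕ) + idx (b ((ρ b).symm r))
  have g_mono : ∀ b, StrictMono (g b) := by
    intro b r r' h
    have h1 : ρ b ((ρ b).symm r) < ρ b ((ρ b).symm r') := by simpa using h
    rw [hρ, Prod.Lex.toLex_lt_toLex] at h1
    have h2 : b ((ρ b).symm r) ≤ b ((ρ b).symm r') := by
      rcases h1 with h1 | h1
      · exact h1.le
      · exact h1.1.le
    have h3 := idx_le _ _ h2
    have h4 : (r : ℕ) < r' := h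
    simp only [g]
    omega
  have hcard : (Fintype.piFinset S).card = k ^ n := by
    rw [Fintype.card_piFinset]
    simp [hk]
  have key : (Fintype.piFinset S).card ≤
      (((Fintype.piFinset S).image ρ) ×ˢ (range (n + I)).powerset).card := by
    apply card_le_card_of_injOn (fun b => (ρ b, univ.image (g b)))
    · intro b hb
      rw [mem_coe] at hb
      rw [mem_coe, mem_product]
      refine ⟨mem_image_of_mem _ hb, ?_⟩
      rw [mem_powerset]
      intro y hy
      obtain ⟨r, -, rfl⟩ := mem_image.1 hy
      rw [mem_range]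
      have h1 := idx_lt (b ((ρ b).symm r)) (hS _ (Fintype.mem_piFinset.1 hb _))
      have h2 := r.2
      simp only [g]
      omega
    · intro b hb b' hb' h
      rw [mem_coe] at hb hb'
      simp only [Prod.mk.injEq] at h
      obtain ⟨h1, h2⟩ := h
      have h3 : g b = g b' := by
        rw [← StrictMono.range_inj (g_mono b) (g_mono b')]
        have := congrArg (fun s : Finset ℕ => (s : Set ℕ)) h2
        simpa using this
      funext x
      have h4 := congrFun h3 (ρ b x)
      simp only [g, ← h1, Equiv.symm_apply_apply] at h4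
      apply idx_inj _ (hS _ (Fintype.mem_piFinset.1 hb _)) _ (hS _ (Fintype.mem_piFinset.1 hb' _))
      omega
  rw [hcard, card_product, card_powerset, card_range] at key
  exact key

end Pool.Agent.Work.MP_8eaa9c_co
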