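import Pool.Agent.Work.MP_8eaa9c_co.Sch

/-!
Composition of a global scheme with copies of a local scheme placed inside its fans.
-/

namespace Pool.Agent.Work.MP_8eaa9c_co

open Finset

section composite

variable {α β α' β' : Type} [LinearOrder α] [LinearOrder β] [LinearOrder α'] [LinearOrder β']
  {k f g m I J : ℕ}

/-- The membership relation of the composite. -/
def CIn (G : Sch α β k f g I) (L : Sch α' β' (k + 1) m f J) (ψ : α → β')
    (z : α ⊕ₗ (β ×ₗ α')) (B : β ×ₗ WithTop β') : Prop :=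
  match ofLex z with
  | Sum.inl x => (G.In x (ofLex B).1 ∧ (ofLex B).2 = ⊤) ∨
      (x ∈ G.letters ∧ (ofLex B).1 = G.phi x ∧ (ofLex B).2 = ((ψ x : β') : WithTop β'))
  | Sum.inr w => (ofLex w).1 ∈ G.fans ∧ (ofLex B).1 = (ofLex w).1 ∧
      ∃ j : β', (ofLex B).2 = ((j : β') : WithTop β') ∧ L.In (ofLex w).2 j

/-- The first block of the composite. -/
def cphi (G : Sch α β k f g I) (L : Sch α' β' (k + 1) m f J) (ψ : α → β')
    (z : α ⊕ₗ (β ×ₗ α')) : β ×ₗ WithTop β' :=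
  match ofLex z with
  | Sum.inl x => toLex (G.phi x, ((ψ x : β') : WithTop β'))
  | Sum.inr w => toLex ((ofLex w).1, ((L.phi (ofLex w).2 : β') : WithTop β'))

variable (G : Sch α β k f g I) (L : Sch α' β' (k + 1) m f J) (ψ : α → β')

lemma cin_inl (x : α) (B : β ×ₗ WithTop β') : CIn G L ψ (toLex (Sum.inl x)) B ↔
    (G.In x (ofLex B).1 ∧ (ofLex B).2 = ⊤) ∨
      (x ∈ G.letters ∧ (ofLex B).1 = G.phi x ∧ (ofLex B).2 = ((ψ x : β') : WithTop β')) :=
  Iff.rfl

lemma cin_inr (w : β ×ₗ α') (B : β ×ₗ WithTop β') : CIn G L ψ (toLex (Sum.inr w)) B ↔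
    (ofLex w).1 ∈ G.fans ∧ (ofLex B).1 = (ofLex w).1 ∧
      ∃ j : β', (ofLex B).2 = ((j : β') : WithTop β') ∧ L.In (ofLex w).2 j :=
  Iff.rfl

lemma cphi_inl (x : α) : cphi G L ψ (toLex (Sum.inl x)) =
    toLex (G.phi x, ((ψ x : β') : WithTop β')) := rfl

lemma cphi_inr (w : β ×ₗ α') : cphi G L ψ (toLex (Sum.inr w)) =
    toLex ((ofLex w).1, ((L.phi (ofLex w).2 : β') : WithTop β')) := rfl

lemma cin_inl_mem {x : α} {B : β ×ₗ WithTop β'} (h : CIn G L ψ (toLex (Sum.inl x)) B) :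
    x ∈ G.letters := by
  rw [cin_inl] at h
  rcases h with h | h
  · exact G.mem _ _ h.1
  · exact h.1

lemma cin_inl_G {x : α} {B : β ×ₗ WithTop β'} (h : CIn G L ψ (toLex (Sum.inl x)) B) :
    G.In x (ofLex B).1 := by
  rw [cin_inl] at h
  rcases h with h | h
  · exact h.1
  · rw [h.2.1]
    exact G.phi_in x h.1

lemma cin_inl_ne {x : α} {B : β ×ₗ WithTop β'} (h : CIn G L ψ (toLex (Sum.inl x)) B)
    (hB : (ofLex B).2 ≠ ⊤) : (ofLex B).1 = G.phi x ∧ (ofLex B).2 = ((ψ x : β') : WithTop β') := by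
  rw [cin_inl] at h
  rcases h with h | h
  · exact absurd h.2 hB
  · exact h.2

/-- The composite first block really is the first one. -/
lemma cfirst (z : α ⊕ₗ (β ×ₗ α')) (B : β ×ₗ WithTop β') (h : CIn G L ψ z B) :
    cphi G L ψ z ≤ B := by
  obtain ⟨z, rfl⟩ := toLex.surjective z
  rcases z with x | w
  · rw [cphi_inl, Prod.Lex.le_iff]
    rw [cin_inl] at h
    rcases h with h | h
    · rcases (G.first _ _ h.1).lt_or_eq with h1 | h1
      · exact Or.inl h1
      · exact Or.inr ⟨h1, by rw [h.2]; exact le_top⟩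
    · exact Or.inr ⟨h.2.1.symm, h.2.2.ge⟩
  · rw [cphi_inr, Prod.Lex.le_iff]
    rw [cin_inr] at h
    obtain ⟨-, h1, j, h2, h3⟩ := h
    refine Or.inr ⟨h1.symm, ?_⟩
    rw [h2]
    exact WithTop.coe_le_coe.2 (L.first _ _ h3)

/-- Between two occurrences of a local letter all blocks are local. -/
lemma cbetween {w : β ×ₗ α'} {B C D : β ×ₗ WithTop β'} (hB : CIn G L ψ (toLex (Sum.inr w)) B)
    (hD : CIn G L ψ (toLex (Sum.inr w)) D) (h1 : B ≤ C) (h2 : C ≤ D) :
    (ofLex C).1 = (ofLex w).1 ∧ (ofLex C).2 ≠ ⊤ := by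
  rw [cin_inr] at hB hD
  rw [Prod.Lex.le_iff] at h1 h2
  obtain ⟨-, hB1, j, hB2, -⟩ := hB
  obtain ⟨-, hD1, j', hD2, -⟩ := hD
  rw [hB1] at h1
  rw [hD1] at h2
  have h3 : (ofLex C).1 = (ofLex w).1 := by
    apply le_antisymm
    · rcases h2 with h2 | h2
      · exact h2.le
      · exact h2.1.le
    · rcases h1 with h1 | h1
      · exact h1.le
      · exact h1.1.le
  refine ⟨h3, ?_⟩
  rcases h2 with h2 | h2
  · rw [h3] at h2
    exact absurd h2 (lt_irrefl _)
  · intro h4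
    have := h2.2
    rw [h4, hD2, top_le_iff] at this
    exact WithTop.coe_ne_top this

lemma eq_cphi_of_ne_top {x : α} {B : β ×ₗ WithTop β'} (h : CIn G L ψ (toLex (Sum.inl x)) B)
    (hB : (ofLex B).2 ≠ ⊤) : B = cphi G L ψ (toLex (Sum.inl x)) := by
  have := cin_inl_ne G L ψ h hB
  rw [cphi_inl]
  apply ofLex.injective
  exact Prod.ext this.1 this.2

variable (hψ1 : ∀ x ∈ G.letters, ψ x ∈ L.fans)
  (hψ2 : ∀ x ∈ G.letters, ∀ y ∈ G.letters, G.phi x = G.phi y → x < y → ψ y < ψ x)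
  (hψ3 : ∀ i ∈ G.fans, ∀ j ∈ L.fans, ∃ x ∈ G.letters, G.phi x = i ∧ ψ x = j)

include hψ2 in
lemma key1 {x y : α} (hxy : x < y) {B C D : β ×ₗ WithTop β'}
    (hB : CIn G L ψ (toLex (Sum.inl x)) B) (hC : CIn G L ψ (toLex (Sum.inl y)) C)
    (hD : CIn G L ψ (toLex (Sum.inl x)) D) (h1 : B ≤ C) (h2 : C < D)
    (h3 : (ofLex C).1 = (ofLex D).1) : False := by
  have hCt : (ofLex C).2 ≠ ⊤ := by
    rw [Prod.Lex.lt_iff] at h2
    rcases h2 with h2 | h2
    · exact absurd h3 h2.ne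
    · intro h4
      rw [h4] at h2
      exact not_top_lt h2.2
  have hC1 := cin_inl_ne G L ψ hC hCt
  have hy := cin_inl_mem G L ψ hC
  have hx := cin_inl_mem G L ψ hB
  have hf : (ofLex C).1 ∈ G.fans := by
    rw [hC1.1]; exact G.phi_mem y hy
  have hxD := cin_inl_G G L ψ hD
  rw [← h3] at hxD
  have hpx : G.phi x = (ofLex C).1 := G.fan_in x _ hf hxD
  have hle : cphi G L ψ (toLex (Sum.inl x)) ≤ C := (cfirst G L ψ _ _ hB).trans h1
  rw [cphi_inl, Prod.Lex.le_iff] at hle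
  rcases hle with hle | hle
  · exact absurd hpx (ne_of_lt hle)
  · have h5 := hle.2
    rw [hC1.2] at h5
    have h6 : ψ x ≤ ψ y := WithTop.coe_le_coe.1 h5
    have h7 := hψ2 x hx y hy (by rw [hpx, hC1.1]) hxy
    exact absurd h6 (not_le.2 h7)

lemma fst_le {B C : β ×ₗ WithTop β'} (h : B ≤ C) : (ofLex B).1 ≤ (ofLex C).1 := by
  rw [Prod.Lex.le_iff] at h
  rcases h with h | h
  · exact h.le
  · exact h.1.le

/-- Two local letters, the smaller occurring between two occurrences of the larger, or conversely,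
belong to the same copy. -/
lemma same_copy {w v : β ×ₗ α'} {B C D : β ×ₗ WithTop β'}
    (hB : CIn G L ψ (toLex (Sum.inr w)) B) (hC : CIn G L ψ (toLex (Sum.inr v)) C)
    (hD : CIn G L ψ (toLex (Sum.inr w)) D) (h1 : B ≤ C) (h2 : C ≤ D) :
    (ofLex v).1 = (ofLex w).1 := by
  have h3 := (cbetween G L ψ hB hD h1 h2).1
  rw [cin_inr] at hC
  rw [← hC.2.1, h3]

lemma loc_lt {w v : β ×ₗ α'} (h : w < v) (h1 : (ofLex w).1 = (ofLex v).1) :
    (ofLex w).2 < (ofLex v).2 := by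
  rw [Prod.Lex.lt_iff] at h
  rcases h with h | h
  · exact absurd h1 h.ne
  · exact h.2

lemma loc_blk {w : β ×ₗ α'} {B : β ×ₗ WithTop β'} (h : CIn G L ψ (toLex (Sum.inr w)) B) :
    ∃ j : β', B = toLex ((ofLex w).1, ((j : β') : WithTop β')) ∧ L.In (ofLex w).2 j := by
  rw [cin_inr] at h
  obtain ⟨-, h1, j, h2, h3⟩ := h
  exact ⟨j, ofLex.injective (Prod.ext h1 h2), h3⟩

lemma blk_lt {i : β} {j j' : β'}
    (h : (toLex (i, ((j : β') : WithTop β')) : β ×ₗ WithTop β') < toLex (i, ((j' : β') : WithTop β'))) :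
    j < j' := by
  rw [Prod.Lex.toLex_lt_toLex] at h
  rcases h with h | h
  · exact absurd h (lt_irrefl _)
  · exact WithTop.coe_lt_coe.1 h.2

lemma blk_le {i : β} {j j' : β'}
    (h : (toLex (i, ((j : β') : WithTop β')) : β ×ₗ WithTop β') ≤ toLex (i, ((j' : β') : WithTop β'))) :
    j ≤ j' := by
  rw [Prod.Lex.toLex_le_toLex] at h
  rcases h with h | h
  · exact absurd h (lt_irrefl _)
  · exact WithTop.coe_le_coe.1 h.2

include hψ2 in
lemma c_abab (a b : α ⊕ₗ (β ×ₗ α')) (i j p q : β ×ₗ WithTop β') (hab : a < b) (hij : i ≤ j)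
    (hjp : j < p) (hpq : p ≤ q) (h1 : CIn G L ψ a i) (h2 : CIn G L ψ b j) (h3 : CIn G L ψ a p)
    (h4 : CIn G L ψ b q) : False := by
  obtain ⟨a, rfl⟩ := toLex.surjective a
  obtain ⟨b, rfl⟩ := toLex.surjective b
  rcases a with x | w <;> rcases b with y | v
  · rw [Sum.Lex.inl_lt_inl_iff] at hab
    rcases (fst_le hjp.le).lt_or_eq with h5 | h5
    · exact G.abab x y _ _ _ _ hab (fst_le hij) h5 (fst_le hpq) (cin_inl_G G L ψ h1)
        (cin_inl_G G L ψ h2) (cin_inl_G G L ψ h3) (cin_inl_G G L ψ h4)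
    · exact key1 G L ψ hψ2 hab h1 h2 h3 hij hjp h5
  · have h5 := cbetween G L ψ h2 h4 hjp.le hpq
    have h6 := eq_cphi_of_ne_top G L ψ h3 h5.2
    have h7 := cfirst G L ψ _ _ h1
    rw [← h6] at h7
    exact absurd (lt_of_lt_of_le hjp (h7.trans hij)) (lt_irrefl _)
  · exact Sum.Lex.not_inr_lt_inl hab
  · rw [Sum.Lex.inr_lt_inr_iff] at hab
    have h5 := same_copy G L ψ h2 h3 h4 hjp.le hpq
    have h6 := loc_lt hab h5
    obtain ⟨i', rfl, h1'⟩ := loc_blk G L ψ h1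
    obtain ⟨j', rfl, h2'⟩ := loc_blk G L ψ h2
    obtain ⟨p', rfl, h3'⟩ := loc_blk G L ψ h3
    obtain ⟨q', rfl, h4'⟩ := loc_blk G L ψ h4
    rw [h5] at hij hjp hpq
    exact L.abab _ _ _ _ _ _ h6 (blk_le hij) (blk_lt hjp) (blk_le hpq) h1' h2' h3' h4'

include hψ2 in
lemma c_cabac (a b c : α ⊕ₗ (β ×ₗ α')) (i j p q r : β ×ₗ WithTop β') (hab : a < b) (hbc : b < c)
    (hij : i < j) (hjp : j ≤ p) (hpq : p < q) (hqr : q ≤ r) (h1 : CIn G L ψ c i)
    (h2 : CIn G L ψ a j) (h3 : CIn G L ψ b p) (h4 : CIn G L ψ a q) (h5 : CIn G L ψ c r) :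
    False := by
  obtain ⟨a, rfl⟩ := toLex.surjective a
  obtain ⟨b, rfl⟩ := toLex.surjective b
  obtain ⟨c, rfl⟩ := toLex.surjective c
  rcases c with z | u
  · rcases b with y | v
    · rcases a with x | w
      · rw [Sum.Lex.inl_lt_inl_iff] at hab hbc
        rcases (fst_le hpq.le).lt_or_eq with h6 | h6
        · rcases (fst_le hij.le).lt_or_eq with h7 | h7
          · exact G.cabac x y z _ _ _ _ _ hab hbc h7 (fst_le hjp) h6 (fst_le hqr)
              (cin_inl_G G L ψ h1) (cin_inl_G G L ψ h2) (cin_inl_G G L ψ h3)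
              (cin_inl_G G L ψ h4) (cin_inl_G G L ψ h5)
          · have h8 : (ofLex i).2 ≠ ⊤ := by
              rw [Prod.Lex.lt_iff] at hij
              rcases hij with hij | hij
              · exact absurd h7 hij.ne
              · intro h9
                rw [h9] at hij
                exact not_top_lt hij.2
            have h9 := cin_inl_ne G L ψ h1 h8
            have hz := cin_inl_mem G L ψ h1
            have hf : (ofLex i).1 ∈ G.fans := by
              rw [h9.1]; exact G.phi_mem z hz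
            have h10 := cin_inl_G G L ψ h2
            rw [← h7] at h10
            have h11 : G.phi x = (ofLex i).1 := G.fan_in x _ hf h10
            have h12 : (ofLex i).1 < (ofLex q).1 := by
              rw [h7]; exact lt_of_le_of_lt (fst_le hjp) h6
            exact G.R x z _ _ _ (hab.trans hbc) (h11.trans h9.1) h12 (fst_le hqr)
              (cin_inl_G G L ψ h1) (cin_inl_G G L ψ h4) (cin_inl_G G L ψ h5)
        · exact key1 G L ψ hψ2 hab h2 h3 h4 hjp hpq h6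
      · exact Sum.Lex.not_inr_lt_inl hab
    · exact Sum.Lex.not_inr_lt_inl hbc
  · rcases a with x | w
    · have h6 := cbetween G L ψ h1 h5 hij.le (hjp.trans (hpq.le.trans hqr))
      have h7 := cbetween G L ψ h1 h5 (hij.le.trans (hjp.trans hpq.le)) hqr
      have h8 := eq_cphi_of_ne_top G L ψ h2 h6.2
      have h9 := eq_cphi_of_ne_top G L ψ h4 h7.2
      have h10 : j < q := lt_of_le_of_lt hjp hpq
      rw [h8, h9] at h10
      exact lt_irrefl _ h10
    · rcases b with y | v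
      · exact Sum.Lex.not_inr_lt_inl hab
      · rw [Sum.Lex.inr_lt_inr_iff] at hab hbc
        have e1 := same_copy G L ψ h1 h2 h5 hij.le (hjp.trans (hpq.le.trans hqr))
        have e2 := same_copy G L ψ h1 h3 h5 (hij.le.trans hjp) (hpq.le.trans hqr)
        have l1 := loc_lt hab (e1.trans e2.symm)
        have l2 := loc_lt hbc e2
        obtain ⟨i', rfl, h1'⟩ := loc_blk G L ψ h1
        obtain ⟨j', rfl, h2'⟩ := loc_blk G L ψ h2
        obtain ⟨p', rfl, h3'⟩ := loc_blk G L ψ h3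
        obtain ⟨q', rfl, h4'⟩ := loc_blk G L ψ h4
        obtain ⟨r', rfl, h5'⟩ := loc_blk G L ψ h5
        rw [e1] at hij hjp hpq hqr
        rw [e2] at hjp hpq
        exact L.cabac _ _ _ _ _ _ _ _ l1 l2 (blk_lt hij) (blk_le hjp) (blk_lt hpq) (blk_le hqr)
          h1' h2' h3' h4' h5'

include hψ2 in
lemma c_R (a b : α ⊕ₗ (β ×ₗ α')) (i j p : β ×ₗ WithTop β') (hab : a < b)
    (hphi : cphi G L ψ a = cphi G L ψ b) (hij : i < j) (hjp : j ≤ p)
    (h1 : CIn G L ψ b i) (h2 : CIn G L ψ a j) (h3 : CIn G L ψ b p) : False := by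
  obtain ⟨a, rfl⟩ := toLex.surjective a
  obtain ⟨b, rfl⟩ := toLex.surjective b
  rcases a with x | w <;> rcases b with y | v
  · rw [Sum.Lex.inl_lt_inl_iff] at hab
    rw [cphi_inl, cphi_inl] at hphi
    have h4 := toLex.injective hphi
    rw [Prod.mk.injEq] at h4
    have h5 := hψ2 x (cin_inl_mem G L ψ h2) y (cin_inl_mem G L ψ h1) h4.1 hab
    have h6 : ψ x = ψ y := WithTop.coe_injective h4.2
    rw [h6] at h5
    exact lt_irrefl _ h5
  · have h5 := cbetween G L ψ h1 h3 hij.le hjp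
    have h6 := eq_cphi_of_ne_top G L ψ h2 h5.2
    have h7 := cfirst G L ψ _ _ h1
    rw [← hphi, ← h6] at h7
    exact absurd (lt_of_lt_of_le hij h7) (lt_irrefl _)
  · exact Sum.Lex.not_inr_lt_inl hab
  · rw [Sum.Lex.inr_lt_inr_iff] at hab
    rw [cphi_inr, cphi_inr] at hphi
    have h4 := toLex.injective hphi
    rw [Prod.mk.injEq] at h4
    have h5 : L.phi (ofLex w).2 = L.phi (ofLex v).2 := WithTop.coe_injective h4.2
    have h6 := loc_lt hab h4.1
    obtain ⟨i', rfl, h1'⟩ := loc_blk G L ψ h1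
    obtain ⟨j', rfl, h2'⟩ := loc_blk G L ψ h2
    obtain ⟨p', rfl, h3'⟩ := loc_blk G L ψ h3
    rw [h4.1] at hij hjp
    exact L.R _ _ _ _ _ h6 h5 (blk_lt hij) (blk_le hjp) h1' h2' h3'

end composite

end Pool.Agent.Work.MP_8eaa9c_co
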