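import Pool.Agent.Work.MP_8eaa9c_co.Comp

/-!
The composite scheme as a scheme.
-/

namespace Pool.Agent.Work.MP_8eaa9c_co

open Finset

section composite

variable {α β α' β' : Type} [LinearOrder α] [LinearOrder β] [LinearOrder α'] [LinearOrder β']
  {k f g m I J : ℕ}

lemma exists_psi [Nonempty β'] (G : Sch α β k f g I) (L : Sch α' β' (k + 1) m f J) :
    ∃ ψ : α → β', (∀ x ∈ G.letters, ψ x ∈ L.fans) ∧
      (∀ x ∈ G.letters, ∀ y ∈ G.letters, G.phi x = G.phi y → x < y → ψ y < ψ x) ∧
      (∀ i ∈ G.fans, ∀ j ∈ L.fans, ∃ x ∈ G.letters, G.phi x = i ∧ ψ x = j) := by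
  classical
  have h : ∀ i : β, ∃ ψ : α → β', i ∈ G.fans →
      ((∀ x ∈ G.letters.filter (fun x => G.phi x = i), ψ x ∈ L.fans) ∧
      (∀ x ∈ G.letters.filter (fun x => G.phi x = i),
        ∀ y ∈ G.letters.filter (fun x => G.phi x = i), x < y → ψ y < ψ x) ∧
      (∀ b ∈ L.fans, ∃ x ∈ G.letters.filter (fun x => G.phi x = i), ψ x = b)) := by
    intro i
    by_cases hi : i ∈ G.fans
    · obtain ⟨ψ, h1, h2, h3⟩ := exists_anti (G.letters.filter (fun x => G.phi x = i)) L.fans
        ((G.fan_card i hi).trans L.fans_card.symm)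
      exact ⟨ψ, fun _ => ⟨h1, h2, h3⟩⟩
    · exact ⟨fun _ => Classical.arbitrary β', fun h => absurd h hi⟩
  choose Ψ hΨ using h
  refine ⟨fun x => Ψ (G.phi x) x, ?_, ?_, ?_⟩
  · intro x hx
    exact (hΨ _ (G.phi_mem x hx)).1 x (by simp [hx])
  · intro x hx y hy hxy hlt
    have := (hΨ _ (G.phi_mem x hx)).2.1 x (by simp [hx]) y (by simp [hy, hxy]) hlt
    show Ψ (G.phi y) y < Ψ (G.phi x) x
    rw [← hxy]
    exact this
  · intro i hi j hj
    obtain ⟨x, hx, hxj⟩ := (hΨ i hi).2.2 j hj
    rw [mem_filter] at hx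
    refine ⟨x, hx.1, hx.2, ?_⟩
    show Ψ (G.phi x) x = j
    rw [hx.2]
    exact hxj

theorem comp [Nonempty β'] (G : Sch α β k f g I) (L : Sch α' β' (k + 1) m f J) :
    Nonempty (Sch (α ⊕ₗ (β ×ₗ α')) (β ×ₗ WithTop β') (k + 1) (m + 1) (g * f) (g * J + I)) := by
  classical
  obtain ⟨ψ, hψ1, hψ2, hψ3⟩ := exists_psi G L
  let top : β ↪ β ×ₗ WithTop β' := ⟨fun i => toLex (i, ⊤), fun i j h => by
    have := toLex.injective h
    exact (Prod.mk.injEq _ _ _ _ ▸ this).1⟩
  let loc : β × β' ↪ β ×ₗ WithTop β' := ⟨fun p => toLex (p.1, ((p.2 : β') : WithTop β')),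
    fun p q h => by
      have h1 := toLex.injective h
      rw [Prod.mk.injEq] at h1
      exact Prod.ext h1.1 (WithTop.coe_injective h1.2)⟩
  let il : α ↪ α ⊕ₗ (β ×ₗ α') := ⟨fun x => toLex (Sum.inl x), fun x y h =>
    Sum.inl_injective (toLex.injective h)⟩
  let ir : β × α' ↪ α ⊕ₗ (β ×ₗ α') := ⟨fun p => toLex (Sum.inr (toLex p)), fun x y h =>
    toLex.injective (Sum.inr_injective (toLex.injective h))⟩
  refine ⟨{
    letters := G.letters.map il ∪ (G.fans ×ˢ L.letters).map ir
    blocks := G.blocks.map top ∪ (G.fans ×ˢ L.blocks).map loc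
    fans := (G.fans ×ˢ L.fans).map loc
    In := CIn G L ψ
    phi := cphi G L ψ
    fans_sub := ?_
    fans_card := ?_
    blocks_card := ?_
    mem := ?_
    occ := ?_
    phi_mem := ?_
    phi_in := ?_
    first := cfirst G L ψ
    fan_in := ?_
    fan_card := ?_
    abab := c_abab G L ψ hψ2
    cabac := c_cabac G L ψ hψ2
    R := c_R G L ψ hψ2 }⟩
  · intro b hb
    exact mem_union_right _ (map_subset_map.2 (product_subset_product_right L.fans_sub) hb)
  · rw [card_map, card_product, G.fans_card, L.fans_card]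
  · refine (card_union_le _ _).trans ?_
    rw [card_map, card_map, card_product, G.fans_card]
    have h1 := G.blocks_card
    have h2 := Nat.mul_le_mul_left g L.blocks_card
    omega
  · intro x b h
    obtain ⟨x, rfl⟩ := toLex.surjective x
    rcases x with x | w
    · exact mem_union_left _ (mem_map.2 ⟨x, cin_inl_mem G L ψ h, rfl⟩)
    · rw [cin_inr] at h
      obtain ⟨h1, -, j, -, h2⟩ := h
      exact mem_union_right _ (mem_map.2 ⟨ofLex w, mem_product.2 ⟨h1, L.mem _ _ h2⟩, rfl⟩)
  · intro x hx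
    rcases mem_union.1 hx with hx | hx
    · obtain ⟨x, hx', rfl⟩ := mem_map.1 hx
      replace hx := hx'
      obtain ⟨s, hs, hsc, hsi⟩ := G.occ x hx
      refine ⟨insert (loc (G.phi x, ψ x)) (s.map top), ?_, ?_, ?_⟩
      · apply insert_subset
        · exact mem_union_right _ (mem_map.2 ⟨(G.phi x, ψ x),
            mem_product.2 ⟨G.phi_mem x hx, L.fans_sub (hψ1 x hx)⟩, rfl⟩)
        · intro b hb
          exact mem_union_left _ (map_subset_map.2 hs hb)
      · rw [card_insert_of_notMem, card_map, hsc]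
        intro h
        obtain ⟨i, -, hi⟩ := mem_map.1 h
        have h1 := toLex.injective hi
        rw [Prod.mk.injEq] at h1
        exact WithTop.coe_ne_top h1.2.symm
      · intro b hb
        rcases mem_insert.1 hb with rfl | hb
        · exact Or.inr ⟨hx, rfl, rfl⟩
        · obtain ⟨i, hi, rfl⟩ := mem_map.1 hb
          exact Or.inl ⟨hsi i hi, rfl⟩
    · obtain ⟨⟨i, y⟩, hy, rfl⟩ := mem_map.1 hx
      rw [mem_product] at hy
      obtain ⟨s, hs, hsc, hsi⟩ := L.occ y hy.2
      refine ⟨s.map (⟨fun j => toLex (i, ((j : β') : WithTop β')), fun p q h => by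
        have h1 := toLex.injective h
        rw [Prod.mk.injEq] at h1
        exact WithTop.coe_injective h1.2⟩ : β' ↪ β ×ₗ WithTop β'), ?_, ?_, ?_⟩
      · intro b hb
        obtain ⟨j, hj, rfl⟩ := mem_map.1 hb
        exact mem_union_right _ (mem_map.2 ⟨(i, j), mem_product.2 ⟨hy.1, hs hj⟩, rfl⟩)
      · rw [card_map, hsc]
      · intro b hb
        obtain ⟨j, hj, rfl⟩ := mem_map.1 hb
        exact ⟨hy.1, rfl, j, rfl, hsi j hj⟩
  · intro x hx
    rcases mem_union.1 hx with hx | hx
    · obtain ⟨x, hx', rfl⟩ := mem_map.1 hx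
      replace hx := hx'
      exact mem_map.2 ⟨(G.phi x, ψ x), mem_product.2 ⟨G.phi_mem x hx, hψ1 x hx⟩, rfl⟩
    · obtain ⟨⟨i, y⟩, hy, rfl⟩ := mem_map.1 hx
      rw [mem_product] at hy
      exact mem_map.2 ⟨(i, L.phi y), mem_product.2 ⟨hy.1, L.phi_mem y hy.2⟩, rfl⟩
  · intro x hx
    rcases mem_union.1 hx with hx | hx
    · obtain ⟨x, hx', rfl⟩ := mem_map.1 hx
      replace hx := hx'
      exact Or.inr ⟨hx, rfl, rfl⟩
    · obtain ⟨⟨i, y⟩, hy, rfl⟩ := mem_map.1 hx
      rw [mem_product] at hy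
      exact ⟨hy.1, rfl, _, rfl, L.phi_in y hy.2⟩
  · intro x b hb h
    obtain ⟨⟨i, j⟩, hij, rfl⟩ := mem_map.1 hb
    rw [mem_product] at hij
    obtain ⟨x, rfl⟩ := toLex.surjective x
    rcases x with x | w
    · exact (eq_cphi_of_ne_top G L ψ h WithTop.coe_ne_top).symm
    · rw [cin_inr] at h
      obtain ⟨-, h1, j', h2, h3⟩ := h
      have h4 : j = j' := WithTop.coe_injective h2
      have h5 : i = (ofLex w).1 := h1
      rw [cphi_inr, L.fan_in _ _ (h4 ▸ hij.2) h3, ← h4, ← h5]
      rfl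
  · intro b hb
    obtain ⟨⟨i, j⟩, hij, rfl⟩ := mem_map.1 hb
    rw [mem_product] at hij
    obtain ⟨x0, hx0, hx1, hx2⟩ := hψ3 i hij.1 j hij.2
    have : ((G.letters.map il ∪ (G.fans ×ˢ L.letters).map ir).filter
        (fun x => cphi G L ψ x = loc (i, j))) =
        insert (il x0) (((L.letters.filter (fun y => L.phi y = j)).map
          ⟨fun y => (i, y), fun _ _ h => (Prod.mk.injEq _ _ _ _ ▸ h).2⟩).map ir) := by
      ext z
      simp only [mem_filter, mem_union, mem_insert]
      constructor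
      · rintro ⟨hz | hz, hz2⟩
        · obtain ⟨x, hx, rfl⟩ := mem_map.1 hz
          left
          have h1 := toLex.injective hz2
          rw [Prod.mk.injEq] at h1
          have h2 : ψ x = j := WithTop.coe_injective h1.2
          have h3 : G.phi x = i := h1.1
          congr 1
          rcases lt_trichotomy x x0 with h | h | h
          · have := hψ2 x hx x0 hx0 (h3.trans hx1.symm) h
            rw [h2, hx2] at this
            exact absurd this (lt_irrefl _)
          · exact h
          · have := hψ2 x0 hx0 x hx (hx1.trans h3.symm) h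
            rw [h2, hx2] at this
            exact absurd this (lt_irrefl _)
        · obtain ⟨⟨i', y⟩, hy, rfl⟩ := mem_map.1 hz
          right
          rw [mem_product] at hy
          have h1 := toLex.injective hz2
          rw [Prod.mk.injEq] at h1
          have h2 : L.phi y = j := WithTop.coe_injective h1.2
          have h3 : i' = i := h1.1
          subst h3
          exact mem_map.2 ⟨(i', y), mem_map.2 ⟨y, mem_filter.2 ⟨hy.2, h2⟩, rfl⟩, rfl⟩
      · rintro (rfl | hz)
        · refine ⟨Or.inl (mem_map.2 ⟨x0, hx0, rfl⟩), ?_⟩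
          change toLex (G.phi x0, ((ψ x0 : β') : WithTop β')) = toLex (i, ((j : β') : WithTop β'))
          rw [hx1, hx2]
        · obtain ⟨p, hp, rfl⟩ := mem_map.1 hz
          obtain ⟨y, hy, rfl⟩ := mem_map.1 hp
          rw [mem_filter] at hy
          refine ⟨Or.inr (mem_map.2 ⟨(i, y), mem_product.2 ⟨hij.1, hy.1⟩, rfl⟩), ?_⟩
          change toLex (i, ((L.phi y : β') : WithTop β')) = toLex (i, ((j : β') : WithTop β'))
          rw [hy.2]
    rw [this, card_insert_of_notMem, card_map, card_map, L.fan_card j hij.2]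
    intro h
    obtain ⟨p, -, hp⟩ := mem_map.1 h
    have := toLex.injective hp
    simp at this

end composite

end Pool.Agent.Work.MP_8eaa9c_co
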