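import Mathlib

/-!
Restricted sets of permutations, exponential behaviour, word patterns.
-/

namespace Pool.Agent.Work.MP_8eaa9c_co

/-- The restriction of `π` at the positions `X` is the pattern `τ`. -/
def HasRestriction {N n : ℕ} (π : Equiv.Perm (Fin n)) (X : Fin N ↪o Fin n)
    (τ : Equiv.Perm (Fin N)) : Prop :=
  ∀ a b, τ a < τ b ↔ π (X a) < π (X b)

/-- `P` is restricted for the collection `F`: at every tuple of positions `X` all patterns of
some member of `F` are forbidden for `P`. -/
def Restricted {N n : ℕ} (F : Set (Set (Equiv.Perm (Fin N)))) (P : Set (Equiv.Perm (Fin n))) :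
    Prop :=
  ∀ X : Fin N ↪o Fin n, ∃ A ∈ F, ∀ τ ∈ A, ∀ π ∈ P, ¬ HasRestriction π X τ

/-- Exponential behaviour of the collection `F`. -/
def ExponentialBehaviour {N : ℕ} (F : Set (Set (Equiv.Perm (Fin N)))) : Prop :=
  ∃ c : ℝ, ∀ n : ℕ, ∀ P : Finset (Equiv.Perm (Fin n)), Restricted F (P : Set (Equiv.Perm (Fin n))) →
    (P.card : ℝ) ≤ c ^ n

/-- The word `w` contains the word `u`: some subsequence of `w` is order isomorphic to `u`
(equal letters corresponding to equal letters). -/
def HasPattern {L N k r : ℕ} (w : Fin L → Fin N) (u : Fin k → Fin r) : Prop :=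
  ∃ s : Fin k → Fin L, StrictMono s ∧ ∀ i j, w (s i) < w (s j) ↔ u i < u j

/-- The word `w` spells `σ`: the word `σ⁻¹(1) σ⁻¹(2) ... σ⁻¹(N)` (positions in increasing order
of the values of `σ`) is a subsequence of `w`. -/
def Spells {L N : ℕ} (w : Fin L → Fin N) (σ : Equiv.Perm (Fin N)) : Prop :=
  ∃ s : Fin N → Fin L, StrictMono s ∧ ∀ v, w (s v) = σ.symm v

end Pool.Agent.Work.MP_8eaa9c_co
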