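import Pool.Agent.Work.MP_8eaa9c_co.Defs
import Pool.Agent.Work.MP_8eaa9c_co.Count

/-!
The necessary condition for exponential behaviour, first class of words.
-/

namespace Pool.Agent.Work.MP_8eaa9c_co

open Finset

/-- The word of a tuple of positions in a scheme. -/
theorem word_of_positions {α β : Type} [LinearOrder α] [LinearOrder β] {k m F I : ℕ}
    (Sc : Sch α β k m F I) {n N : ℕ} (e : Fin n → α) (he : StrictMono e) (X : Fin N ↪o Fin n) :
    ∃ (L : ℕ) (w : Fin L → Fin N), ¬ HasPattern w (![0, 1, 0, 1] : Fin 4 → Fin 2) ∧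
      ¬ HasPattern w (![2, 0, 1, 0, 2] : Fin 5 → Fin 3) ∧
      ∀ b : Fin n → β, (∀ x, b x ∈ Sc.blocks ∧ Sc.In (e x) (b x)) →
        ∀ π : Equiv.Perm (Fin n), (∀ x y, π x < π y ↔ toLex (b x, x) < toLex (b y, y)) →
          ∀ τ, HasRestriction π X τ → Spells w τ := by
  classical
  let T : Finset (β ×ₗ Fin N) :=
    ((Sc.blocks ×ˢ (univ : Finset (Fin N))).filter (fun p => Sc.In (e (X p.2)) p.1)).map
      (toLex : β × Fin N ≃ β ×ₗ Fin N).toEmbedding
  have memT : ∀ c a, toLex (c, a) ∈ T ↔ c ∈ Sc.blocks ∧ Sc.In (e (X a)) c := by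
    intro c a
    simp only [T, mem_map, mem_filter, mem_product, mem_univ, and_true]
    constructor
    · rintro ⟨p, hp, hq⟩
      have : p = (c, a) := toLex.injective hq
      subst this
      exact hp
    · intro h
      exact ⟨(c, a), h, rfl⟩
  let iso := T.orderIsoOfFin rfl
  let en : Fin T.card → β ×ₗ Fin N := fun l => (iso l : β ×ₗ Fin N)
  let w : Fin T.card → Fin N := fun l => (ofLex (en l)).2
  let c : Fin T.card → β := fun l => (ofLex (en l)).1
  have hen : ∀ l, Sc.In (e (X (w l))) (c l) := fun l => ((memT _ _).1 (iso l).2).2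
  have hlt : ∀ l l', l < l' → en l < en l' := fun l l' h => iso.strictMono h
  have cle : ∀ l l', l < l' → c l ≤ c l' := by
    intro l l' h
    have := hlt l l' h
    rw [Prod.Lex.lt_iff] at this
    rcases this with h | h
    · exact h.le
    · exact h.1.le
  have clt : ∀ l l', l < l' → ¬ (w l < w l') → c l < c l' := by
    intro l l' h h2
    have := hlt l l' h
    rw [Prod.Lex.lt_iff] at this
    rcases this with h | h
    · exact h
    · exact absurd h.2 h2
  have eX : ∀ a b : Fin N, a < b → e (X a) < e (X b) := fun a b h => he (X.strictMono h)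
  refine ⟨T.card, w, ?_, ?_, ?_⟩
  · rintro ⟨s, hs, h⟩
    have s01 : s 0 < s 1 := hs (by decide)
    have s12 : s 1 < s 2 := hs (by decide)
    have s23 : s 2 < s 3 := hs (by decide)
    have w01 : w (s 0) < w (s 1) := (h 0 1).2 (by decide)
    have w02 : w (s 0) = w (s 2) := le_antisymm (not_lt.1 fun h' => absurd ((h 2 0).1 h') (by decide))
      (not_lt.1 fun h' => absurd ((h 0 2).1 h') (by decide))
    have w13 : w (s 1) = w (s 3) := le_antisymm (not_lt.1 fun h' => absurd ((h 3 1).1 h') (by decide))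
      (not_lt.1 fun h' => absurd ((h 1 3).1 h') (by decide))
    refine Sc.abab (e (X (w (s 0)))) (e (X (w (s 1)))) (c (s 0)) (c (s 1)) (c (s 2)) (c (s 3))
      (eX _ _ w01) (cle _ _ s01) (clt _ _ s12 ?_) (cle _ _ s23) (hen _) (hen _) ?_ ?_
    · rw [← w02]; exact w01.le.not_gt
    · rw [w02]; exact hen _
    · rw [w13]; exact hen _
  · rintro ⟨s, hs, h⟩
    have s01 : s 0 < s 1 := hs (by decide)
    have s12 : s 1 < s 2 := hs (by decide)
    have s23 : s 2 < s 3 := hs (by decide)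
    have s34 : s 3 < s 4 := hs (by decide)
    have w12 : w (s 1) < w (s 2) := (h 1 2).2 (by decide)
    have w20 : w (s 2) < w (s 0) := (h 2 0).2 (by decide)
    have w04 : w (s 0) = w (s 4) := le_antisymm (not_lt.1 fun h' => absurd ((h 4 0).1 h') (by decide))
      (not_lt.1 fun h' => absurd ((h 0 4).1 h') (by decide))
    have w13 : w (s 1) = w (s 3) := le_antisymm (not_lt.1 fun h' => absurd ((h 3 1).1 h') (by decide))
      (not_lt.1 fun h' => absurd ((h 1 3).1 h') (by decide))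
    refine Sc.cabac (e (X (w (s 1)))) (e (X (w (s 2)))) (e (X (w (s 0)))) (c (s 0)) (c (s 1))
      (c (s 2)) (c (s 3)) (c (s 4))
      (eX _ _ w12) (eX _ _ w20) (clt _ _ s01 ?_) (cle _ _ s12) (clt _ _ s23 ?_) (cle _ _ s34)
      (hen _) (hen _) (hen _) ?_ ?_
    · exact (w12.trans w20).le.not_gt
    · rw [← w13]; exact w12.le.not_gt
    · rw [w13]; exact hen _
    · rw [w04]; exact hen _
  · intro b hb π hπ τ hτ
    have hmem : ∀ a : Fin N, toLex (b (X a), a) ∈ T := fun a => (memT _ _).2 (hb (X a))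
    refine ⟨fun v => iso.symm ⟨toLex (b (X (τ.symm v)), τ.symm v), hmem _⟩, ?_, ?_⟩
    · intro v v' hv
      apply iso.symm.strictMono
      rw [Subtype.mk_lt_mk]
      have h1 : τ (τ.symm v) < τ (τ.symm v') := by simpa using hv
      rw [hτ, hπ, Prod.Lex.toLex_lt_toLex] at h1
      rw [Prod.Lex.toLex_lt_toLex]
      rcases h1 with h1 | h1
      · exact Or.inl h1
      · exact Or.inr ⟨h1.1, X.lt_iff_lt.1 h1.2⟩
    · intro v
      simp only [w, en, OrderIso.apply_symm_apply, ofLex_toLex]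

/-- The number of letters of a scheme. -/
lemma letters_card {α β : Type} [LinearOrder α] [LinearOrder β] {k m F I : ℕ}
    (Sc : Sch α β k m F I) : Sc.letters.card = F * m := by
  classical
  rw [card_eq_sum_card_fiberwise (f := Sc.phi) (t := Sc.fans) (fun x hx => Sc.phi_mem x hx)]
  rw [sum_congr rfl (fun b hb => Sc.fan_card b hb), sum_const, Sc.fans_card, smul_eq_mul]

/-- The first class of words. -/
theorem first_class {N : ℕ} (F : Set (Set (Equiv.Perm (Fin N)))) (h : ExponentialBehaviour F) :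
    ∃ (L : ℕ) (w : Fin L → Fin N), ¬ HasPattern w (![0, 1, 0, 1] : Fin 4 → Fin 2) ∧
      ¬ HasPattern w (![2, 0, 1, 0, 2] : Fin 5 → Fin 3) ∧ ∀ A ∈ F, ∃ σ ∈ A, Spells w σ := by
  classical
  by_contra hno
  push Not at hno
  obtain ⟨c, hc⟩ := h
  obtain ⟨k, hk⟩ := exists_nat_gt (|c| * 8)
  obtain ⟨C, hC⟩ := exists_scheme k
  obtain ⟨α, β, _, _, f, I, -, hf, hI, ⟨Sc⟩⟩ := hC (C + 1) (by omega)
  set n := f * (C + 1) with hn
  have hI2 : I ≤ 2 * n := by
    refine hI.trans ?_
    rw [hn]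
    calc f * (C + 1 + C) ≤ f * (2 * (C + 1)) := Nat.mul_le_mul_left _ (by omega)
      _ = 2 * (f * (C + 1)) := by ring
  have hn0 : 0 < n := by rw [hn]; positivity
  let iso := Sc.letters.orderIsoOfFin (letters_card Sc)
  let e : Fin n → α := fun x => (iso x : α)
  have he : StrictMono e := fun x y hxy => iso.strictMono hxy
  have hocc : ∀ x : Fin n, ∃ s : Finset β, s ⊆ Sc.blocks ∧ s.card = k + 1 ∧
      ∀ b ∈ s, Sc.In (e x) b := fun x => Sc.occ (e x) (iso x).2
  choose S hS1 hS2 hS3 using hocc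
  have hrank : ∀ b : Fin n → β, ∃ π : Equiv.Perm (Fin n),
      ∀ x y, π x < π y ↔ toLex (b x, x) < toLex (b y, y) := by
    intro b
    apply exists_rank (γ := β ×ₗ Fin n) (fun x => toLex (b x, x))
    intro x y hxy
    have := toLex.injective hxy
    exact (Prod.mk.injEq _ _ _ _ ▸ this).2
  choose ρ hρ using hrank
  have hcount := count_le Sc.blocks Sc.blocks_card S hS1 hS2 ρ hρ
  have hres : Restricted F (((Fintype.piFinset S).image ρ : Finset (Equiv.Perm (Fin n))) :
      Set (Equiv.Perm (Fin n))) := by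
    intro X
    obtain ⟨L, w, hw1, hw2, hw3⟩ := word_of_positions Sc e he X
    obtain ⟨A, hA, hA2⟩ := hno L w hw1 hw2
    refine ⟨A, hA, fun τ hτ π hπ hr => ?_⟩
    rw [mem_coe] at hπ
    obtain ⟨b, hb, rfl⟩ := mem_image.1 hπ
    rw [Fintype.mem_piFinset] at hb
    exact hA2 τ hτ (hw3 b (fun x => ⟨hS1 x (hb x), hS3 x _ (hb x)⟩) (ρ b) (hρ b) τ hr)
  have h1 := hc n _ hres
  have h2 : ((k : ℝ) + 1) ^ n ≤ |c| ^ n * 8 ^ n := by
    have h3 : (((k + 1) ^ n : ℕ) : ℝ) ≤
        ((((Fintype.piFinset S).image ρ).card * 2 ^ (n + I) : ℕ) : ℝ) := Nat.cast_le.2 hcount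
    push_cast at h3
    have h4 : (2 : ℝ) ^ (n + I) ≤ 8 ^ n := by
      calc (2 : ℝ) ^ (n + I) ≤ 2 ^ (3 * n) := pow_le_pow_right₀ (by norm_num) (by omega)
        _ = 8 ^ n := by rw [pow_mul]; norm_num
    have h5 : ((((Fintype.piFinset S).image ρ).card : ℕ) : ℝ) ≤ |c| ^ n := by
      refine h1.trans ?_
      rw [← abs_pow]
      exact le_abs_self _
    calc ((k : ℝ) + 1) ^ n ≤ _ := h3
      _ ≤ |c| ^ n * 8 ^ n := mul_le_mul h5 h4 (by positivity) (by positivity)
  rw [← mul_pow] at h2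
  have h6 : |c| * 8 < (k : ℝ) + 1 := by linarith
  have h7 := pow_lt_pow_left₀ h6 (by positivity) hn0.ne'
  linarith

end Pool.Agent.Work.MP_8eaa9c_co
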