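import Pool.Agent.Work.MP_8eaa9c_co.Comp2

/-!
Existence of schemes with many occurrences per letter and few blocks.
-/

namespace Pool.Agent.Work.MP_8eaa9c_co

open Finset

/-- Two letters with `k` private blocks each. -/
theorem base_one (k : ℕ) (hk : 1 ≤ k) : Nonempty (Sch ℕ ℕ k 1 2 (2 * k)) := by
  classical
  refine ⟨{
    letters := range 2
    blocks := range (2 * k)
    fans := {0, k}
    In := fun x b => x < 2 ∧ k * x ≤ b ∧ b < k * (x + 1)
    phi := fun x => k * x
    fans_sub := ?_
    fans_card := ?_
    blocks_card := ?_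
    mem := ?_
    occ := ?_
    phi_mem := ?_
    phi_in := ?_
    first := ?_
    fan_in := ?_
    fan_card := ?_
    abab := ?_
    cabac := ?_
    R := ?_ }⟩
  · intro b hb
    simp only [mem_insert, mem_singleton] at hb
    rw [mem_range]
    omega
  · rw [card_insert_of_notMem, card_singleton]
    rw [mem_singleton]; omega
  · rw [card_range]
  · intro x b h
    exact mem_range.2 h.1
  · intro x hx
    rw [mem_range] at hx
    refine ⟨Ico (k * x) (k * (x + 1)), ?_, ?_, ?_⟩
    · intro b hb
      rw [mem_Ico] at hb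
      rw [mem_range]
      have : k * (x + 1) ≤ k * 2 := Nat.mul_le_mul_left k hx
      omega
    · rw [Nat.card_Ico, Nat.mul_add]; omega
    · intro b hb
      rw [mem_Ico] at hb
      exact ⟨hx, hb.1, hb.2⟩
  · intro x hx
    rw [mem_range] at hx
    have : x = 0 ∨ x = 1 := by omega
    rcases this with rfl | rfl <;> simp
  · intro x hx
    rw [mem_range] at hx
    refine ⟨hx, le_rfl, ?_⟩
    rw [Nat.mul_add]; omega
  · intro x b h
    exact h.2.1
  · intro x b hb h
    simp only [mem_insert, mem_singleton] at hb
    obtain ⟨h1, h2, h3⟩ := h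
    have : x = 0 ∨ x = 1 := by omega
    rcases this with rfl | rfl <;> omega
  · intro b hb
    simp only [mem_insert, mem_singleton] at hb
    rw [card_eq_one]
    rcases hb with rfl | rfl
    · refine ⟨0, ?_⟩
      ext x
      simp only [mem_filter, mem_range, mem_singleton, mul_eq_zero]
      constructor
      · rintro ⟨-, h | h⟩ <;> omega
      · rintro rfl; omega
    · refine ⟨1, ?_⟩
      ext x
      simp only [mem_filter, mem_range, mem_singleton]
      constructor
      · rintro ⟨h1, h2⟩
        have : x = 0 ∨ x = 1 := by omega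
        rcases this with rfl | rfl
        · omega
        · rfl
      · rintro rfl; omega
  · intro a b i j p q hab hij hjp hpq h1 h2 h3 h4
    have ha : a = 0 := by omega
    have hb : b = 1 := by omega
    subst ha; subst hb
    omega
  · intro a b c i j p q r hab hbc _ _ _ _ h1
    omega
  · intro a b i j p hab hphi
    intro _ _ h1 h2 h3
    have ha : a = 0 := by omega
    have hb : b = 1 := by omega
    subst ha; subst hb
    simp at hphi
    omega

/-- One occurrence per letter. -/
theorem base_two (m : ℕ) (hm : 1 ≤ m) : Nonempty (Sch ℕ ℕ 1 m 2 2) := by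
  classical
  refine ⟨{
    letters := range (2 * m)
    blocks := range 2
    fans := range 2
    In := fun x b => x < 2 * m ∧ b = x / m
    phi := fun x => x / m
    fans_sub := subset_rfl
    fans_card := card_range 2
    blocks_card := (card_range 2).le
    mem := fun x b h => mem_range.2 h.1
    occ := ?_
    phi_mem := ?_
    phi_in := fun x hx => ⟨mem_range.1 hx, rfl⟩
    first := fun x b h => h.2.ge
    fan_in := fun x b _ h => h.2.symm
    fan_card := ?_
    abab := ?_
    cabac := ?_
    R := ?_ }⟩
  · intro x hx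
    rw [mem_range] at hx
    refine ⟨{x / m}, ?_, card_singleton _, ?_⟩
    · rw [singleton_subset_iff, mem_range]
      exact (Nat.div_lt_iff_lt_mul (by omega)).2 hx
    · intro b hb
      exact ⟨hx, mem_singleton.1 hb⟩
  · intro x hx
    rw [mem_range] at hx ⊢
    exact (Nat.div_lt_iff_lt_mul (by omega)).2 hx
  · intro b hb
    rw [mem_range] at hb
    have : (range (2 * m)).filter (fun x => x / m = b) = Ico (b * m) (b * m + m) := by
      ext x
      rw [mem_filter, mem_range, mem_Ico]
      constructor
      · rintro ⟨h1, h2⟩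
        have h3 := Nat.div_add_mod x m
        have h4 := Nat.mod_lt x (show 0 < m by omega)
        rw [h2, mul_comm m b] at h3
        omega
      · rintro ⟨h1, h2⟩
        have h5 : b * m ≤ 1 * m := Nat.mul_le_mul_right m (by omega)
        refine ⟨by omega, ?_⟩
        rw [Nat.div_eq_iff (by omega)]
        omega
    rw [this, Nat.card_Ico]
    omega
  · intro a b i j p q hab hij hjp hpq h1 h2 h3 h4
    omega
  · intro a b c i j p q r hab hbc hij hjp hpq hqr h1 h2 h3 h4 h5
    omega
  · intro a b i j p hab _ hij hjp h1 h2 h3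
    omega

/-- Schemes with `k` occurrences per letter, fans of size `m` and few blocks. -/
theorem exists_scheme (k : ℕ) : ∃ C : ℕ, ∀ m : ℕ, 1 ≤ m →
    ∃ (α β : Type) (_ : LinearOrder α) (_ : LinearOrder β) (F I : ℕ),
      Nonempty β ∧ 2 ≤ F ∧ I ≤ F * (m + C) ∧ Nonempty (Sch α β (k + 1) m F I) := by
  induction k with
  | zero =>
    refine ⟨0, fun m hm => ⟨ℕ, ℕ, inferInstance, inferInstance, 2, 2, inferInstance, le_rfl, ?_,
      base_two m hm⟩⟩
    omega
  | succ k ih =>
    obtain ⟨C, hC⟩ := ih
    refine ⟨k + 1 + C, fun m hm => ?_⟩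
    suffices h : ∃ (α β : Type) (_ : LinearOrder α) (_ : LinearOrder β) (F I : ℕ),
        Nonempty β ∧ 2 ≤ F ∧ I + 2 * C ≤ F * (m + (k + 1 + C)) ∧
          Nonempty (Sch α β (k + 1 + 1) m F I) by
      obtain ⟨α, β, _, _, F, I, h1, h2, h3, h4⟩ := h
      exact ⟨α, β, _, _, F, I, h1, h2, by omega, h4⟩
    induction m, hm using Nat.le_induction with
    | base =>
      refine ⟨ℕ, ℕ, inferInstance, inferInstance, 2, 2 * (k + 1 + 1), inferInstance, le_rfl, ?_,
        base_one (k + 1 + 1) (by omega)⟩
      omega
    | succ m hm ihm =>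
      obtain ⟨α', β', _, _, f, J, h1, h2, h3, ⟨L⟩⟩ := ihm
      obtain ⟨α, β, _, _, g, I, g1, g2, g3, ⟨G⟩⟩ := hC f (by omega)
      refine ⟨α ⊕ₗ (β ×ₗ α'), β ×ₗ WithTop β', inferInstance, inferInstance, g * f, g * J + I,
        ?_, ?_, ?_, comp G L⟩
      · obtain ⟨b⟩ := g1
        exact ⟨toLex (b, ⊤)⟩
      · calc 2 ≤ 2 * 2 := by norm_num
          _ ≤ g * f := Nat.mul_le_mul g2 h2
      · have e1 : g * J + g * (2 * C) ≤ g * (f * (m + (k + 1 + C))) := by
          rw [← Nat.mul_add]
          exact Nat.mul_le_mul_left g h3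
        have e2 : 2 * C ≤ g * C := Nat.mul_le_mul_right C g2
        have e3 : g * (f * (m + (k + 1 + C))) + g * f = g * f * (m + 1 + (k + 1 + C)) := by ring
        have e4 : g * (f + C) = g * f + g * C := by ring
        have e5 : g * (2 * C) = 2 * (g * C) := by ring
        rw [e4] at g3
        rw [← e3]
        omega

end Pool.Agent.Work.MP_8eaa9c_co
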