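import Mathlib

/-!
Block schemes: systems of letters and blocks, every letter lying in several blocks, whose
associated words (letters of a block written in increasing order) avoid the word patterns
`abab` (with `a < b`) and `cabac` (with `a < b < c`), and their composition.
-/

namespace Pool.Agent.Work.MP_8eaa9c_co

open Finset

/-- A scheme with letters in `α` and blocks in `β`; every letter lies in at least `k` blocks,
there are `F` special blocks (fans), every fan being the first block of exactly `m` letters,
and at most `I` blocks in all. -/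
structure Sch (α β : Type) [LinearOrder α] [LinearOrder β] (k m F I : ℕ) where
  letters : Finset α
  blocks : Finset β
  fans : Finset β
  In : α → β → Prop
  phi : α → β
  fans_sub : fans ⊆ blocks
  fans_card : fans.card = F
  blocks_card : blocks.card ≤ I
  mem : ∀ x b, In x b → x ∈ letters
  occ : ∀ x ∈ letters, ∃ s : Finset β, s ⊆ blocks ∧ s.card = k ∧ ∀ b ∈ s, In x b
  phi_mem : ∀ x ∈ letters, phi x ∈ fans
  phi_in : ∀ x ∈ letters, In x (phi x)
  first : ∀ x b, In x b → phi x ≤ b
  fan_in : ∀ x b, b ∈ fans → In x b → phi x = b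
  fan_card : ∀ b ∈ fans, (letters.filter (fun x => phi x = b)).card = m
  abab : ∀ a b i j k l, a < b → i ≤ j → j < k → k ≤ l →
    In a i → In b j → In a k → In b l → False
  cabac : ∀ a b c i j k l p, a < b → b < c → i < j → j ≤ k → k < l → l ≤ p →
    In c i → In a j → In b k → In a l → In c p → False
  R : ∀ a b i j k, a < b → phi a = phi b → i < j → j ≤ k → In b i → In a j → In b k → False

/-- An order reversing bijection between two finite sets of the same size. -/
lemma exists_anti {α β : Type} [LinearOrder α] [LinearOrder β] [Nonempty β] (A : Finset α)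
    (B : Finset β) (h : A.card = B.card) :
    ∃ ψ : α → β, (∀ x ∈ A, ψ x ∈ B) ∧ (∀ x ∈ A, ∀ y ∈ A, x < y → ψ y < ψ x) ∧
      (∀ b ∈ B, ∃ x ∈ A, ψ x = b) := by
  classical
  let e := A.orderIsoOfFin rfl
  let e' := B.orderIsoOfFin h.symm
  refine ⟨fun x => if hx : x ∈ A then (e' (Fin.rev (e.symm ⟨x, hx⟩)) : β)
    else Classical.arbitrary β, ?_, ?_, ?_⟩
  · intro x hx
    simp only [hx, dif_pos]
    exact (e' _).2
  · intro x hx y hy hxy
    simp only [hx, hy, dif_pos]
    have : e.symm ⟨x, hx⟩ < e.symm ⟨y, hy⟩ := e.symm.strictMono hxy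
    have h2 : Fin.rev (e.symm ⟨y, hy⟩) < Fin.rev (e.symm ⟨x, hx⟩) := Fin.rev_lt_rev.2 this
    exact e'.strictMono h2
  · intro b hb
    refine ⟨(e (Fin.rev (e'.symm ⟨b, hb⟩)) : α), (e _).2, ?_⟩
    simp

end Pool.Agent.Work.MP_8eaa9c_co
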