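import Pool.Agent.Work.MP_8eaa9c_co.Main

/-!
The two reflections, and the necessary condition for all four classes of words.
-/

namespace Pool.Agent.Work.MP_8eaa9c_co

open Finset

lemma hasPattern_comp_rev {L N k r : ℕ} (w : Fin L → Fin N) (u : Fin k → Fin r)
    (h : HasPattern (fun l => w (Fin.rev l)) u) : HasPattern w (fun i => u (Fin.rev i)) := by
  obtain ⟨s, hs, h1⟩ := h
  refine ⟨fun i => Fin.rev (s (Fin.rev i)), ?_, ?_⟩
  · intro i j hij
    exact Fin.rev_lt_rev.2 (hs (Fin.rev_lt_rev.2 hij))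
  · intro i j
    exact h1 (Fin.rev i) (Fin.rev j)

lemma hasPattern_rev_comp {L N k r : ℕ} (w : Fin L → Fin N) (u : Fin k → Fin r)
    (h : HasPattern (fun l => Fin.rev (w l)) u) : HasPattern w (fun i => Fin.rev (u i)) := by
  obtain ⟨s, hs, h1⟩ := h
  refine ⟨s, hs, fun i j => ?_⟩
  have := h1 j i
  rw [Fin.rev_lt_rev] at this
  rw [this, Fin.rev_lt_rev]

/-- Values reversed. -/
def revVal {N : ℕ} (F : Set (Set (Equiv.Perm (Fin N)))) : Set (Set (Equiv.Perm (Fin N))) :=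
  (fun A => (fun σ : Equiv.Perm (Fin N) => σ.trans Fin.revPerm) '' A) '' F

/-- Positions reversed. -/
def revPos {N : ℕ} (F : Set (Set (Equiv.Perm (Fin N)))) : Set (Set (Equiv.Perm (Fin N))) :=
  (fun A => (fun σ : Equiv.Perm (Fin N) => Fin.revPerm.trans σ) '' A) '' F

lemma expo_revVal {N : ℕ} (F : Set (Set (Equiv.Perm (Fin N)))) (h : ExponentialBehaviour F) :
    ExponentialBehaviour (revVal F) := by
  classical
  obtain ⟨c, hc⟩ := h
  refine ⟨c, fun n P hP => ?_⟩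
  have hinj : Function.Injective (fun π : Equiv.Perm (Fin n) => π.trans Fin.revPerm) := by
    intro π π' h
    ext x
    have := congrArg (fun e : Equiv.Perm (Fin n) => e x) h
    simp at this
    rw [this]
  have := hc n (P.image (fun π : Equiv.Perm (Fin n) => π.trans Fin.revPerm)) ?_
  · rwa [card_image_of_injective _ hinj] at this
  · intro X
    obtain ⟨A, hA, h1⟩ := hP X
    obtain ⟨B, hB, rfl⟩ := hA
    refine ⟨B, hB, fun τ hτ π hπ hr => ?_⟩
    rw [mem_coe, mem_image] at hπ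
    obtain ⟨π', hπ', rfl⟩ := hπ
    refine h1 (τ.trans Fin.revPerm) ⟨τ, hτ, rfl⟩ π' hπ' ?_
    intro a b
    have := hr b a
    simp only [Equiv.trans_apply, Fin.revPerm_apply, Fin.rev_lt_rev] at this ⊢
    exact this

lemma expo_revPos {N : ℕ} (F : Set (Set (Equiv.Perm (Fin N)))) (h : ExponentialBehaviour F) :
    ExponentialBehaviour (revPos F) := by
  classical
  obtain ⟨c, hc⟩ := h
  refine ⟨c, fun n P hP => ?_⟩
  have hinj : Function.Injective (fun π : Equiv.Perm (Fin n) => Fin.revPerm.trans π) := by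
    intro π π' h
    ext x
    have := congrArg (fun e : Equiv.Perm (Fin n) => e (Fin.rev x)) h
    simp at this
    rw [this]
  have := hc n (P.image (fun π : Equiv.Perm (Fin n) => Fin.revPerm.trans π)) ?_
  · rwa [card_image_of_injective _ hinj] at this
  · intro X
    let X' : Fin N ↪o Fin n := OrderEmbedding.ofStrictMono (fun a => Fin.rev (X (Fin.rev a)))
      (fun a b hab => Fin.rev_lt_rev.2 (X.strictMono (Fin.rev_lt_rev.2 hab)))
    have hX' : ∀ a, X' a = Fin.rev (X (Fin.rev a)) := fun a => rfl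
    obtain ⟨A, hA, h1⟩ := hP X'
    obtain ⟨B, hB, rfl⟩ := hA
    refine ⟨B, hB, fun τ hτ π hπ hr => ?_⟩
    rw [mem_coe, mem_image] at hπ
    obtain ⟨π', hπ', rfl⟩ := hπ
    refine h1 (Fin.revPerm.trans τ) ⟨τ, hτ, rfl⟩ π' hπ' ?_
    intro a b
    have := hr (Fin.rev a) (Fin.rev b)
    simp only [Equiv.trans_apply, Fin.revPerm_apply] at this ⊢
    rw [this, hX', hX']

/-- If `F` has exponential behaviour, then so has its value reversal, hence a word for the latter
gives a word for the former. -/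
lemma spells_revVal {L N : ℕ} (w : Fin L → Fin N) (σ : Equiv.Perm (Fin N))
    (h : Spells w (σ.trans Fin.revPerm)) : Spells (fun l => w (Fin.rev l)) σ := by
  obtain ⟨s, hs, h1⟩ := h
  refine ⟨fun v => Fin.rev (s (Fin.rev v)), ?_, ?_⟩
  · intro i j hij
    exact Fin.rev_lt_rev.2 (hs (Fin.rev_lt_rev.2 hij))
  · intro v
    simp only [Fin.rev_rev]
    rw [h1]
    simp

lemma spells_revPos {L N : ℕ} (w : Fin L → Fin N) (σ : Equiv.Perm (Fin N))
    (h : Spells w (Fin.revPerm.trans σ)) : Spells (fun l => Fin.rev (w l)) σ := by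
  obtain ⟨s, hs, h1⟩ := h
  refine ⟨s, hs, fun v => ?_⟩
  simp only []
  rw [h1]
  simp

/-- The four classes. -/
theorem four_classes {N : ℕ} (F : Set (Set (Equiv.Perm (Fin N)))) (h : ExponentialBehaviour F)
    (u : Fin 4 → Fin 2) (hu : u = ![0, 1, 0, 1] ∨ u = ![1, 0, 1, 0])
    (v : Fin 5 → Fin 3) (hv : v = ![2, 0, 1, 0, 2] ∨ v = ![0, 2, 1, 2, 0]) :
    ∃ (L : ℕ) (w : Fin L → Fin N), ¬ HasPattern w u ∧ ¬ HasPattern w v ∧
      ∀ A ∈ F, ∃ σ ∈ A, Spells w σ := by
  have e1 : (fun i => (![0, 1, 0, 1] : Fin 4 → Fin 2) (Fin.rev i)) = ![1, 0, 1, 0] := by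
    funext i; fin_cases i <;> rfl
  have e2 : (fun i => (![2, 0, 1, 0, 2] : Fin 5 → Fin 3) (Fin.rev i)) = ![2, 0, 1, 0, 2] := by
    funext i; fin_cases i <;> rfl
  have e3 : (fun i => Fin.rev ((![0, 1, 0, 1] : Fin 4 → Fin 2) i)) = ![1, 0, 1, 0] := by
    funext i; fin_cases i <;> rfl
  have e4 : (fun i => Fin.rev ((![2, 0, 1, 0, 2] : Fin 5 → Fin 3) i)) = ![0, 2, 1, 2, 0] := by
    funext i; fin_cases i <;> rfl
  have e5 : (fun i => Fin.rev ((![0, 1, 0, 1] : Fin 4 → Fin 2) (Fin.rev i))) = ![0, 1, 0, 1] := by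
    funext i; fin_cases i <;> rfl
  have e6 : (fun i => Fin.rev ((![2, 0, 1, 0, 2] : Fin 5 → Fin 3) (Fin.rev i))) =
      ![0, 2, 1, 2, 0] := by
    funext i; fin_cases i <;> rfl
  -- transfer along value reversal
  have tv : ∀ (F : Set (Set (Equiv.Perm (Fin N)))) (u : Fin 4 → Fin 2) (v : Fin 5 → Fin 3),
      (∃ (L : ℕ) (w : Fin L → Fin N), ¬ HasPattern w u ∧ ¬ HasPattern w v ∧
        ∀ A ∈ revVal F, ∃ σ ∈ A, Spells w σ) →
      ∃ (L : ℕ) (w : Fin L → Fin N), ¬ HasPattern w (fun i => u (Fin.rev i)) ∧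
        ¬ HasPattern w (fun i => v (Fin.rev i)) ∧ ∀ A ∈ F, ∃ σ ∈ A, Spells w σ := by
    rintro F u v ⟨L, w, h1, h2, h3⟩
    refine ⟨L, fun l => w (Fin.rev l), fun h => h1 ?_, fun h => h2 ?_, ?_⟩
    · have := hasPattern_comp_rev w _ h
      simpa using this
    · have := hasPattern_comp_rev w _ h
      simpa using this
    · intro A hA
      obtain ⟨σ, hσ, h4⟩ := h3 _ ⟨A, hA, rfl⟩
      obtain ⟨τ, hτ, rfl⟩ := hσ
      exact ⟨τ, hτ, spells_revVal w τ h4⟩
  have tp : ∀ (F : Set (Set (Equiv.Perm (Fin N)))) (u : Fin 4 → Fin 2) (v : Fin 5 → Fin 3),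
      (∃ (L : ℕ) (w : Fin L → Fin N), ¬ HasPattern w u ∧ ¬ HasPattern w v ∧
        ∀ A ∈ revPos F, ∃ σ ∈ A, Spells w σ) →
      ∃ (L : ℕ) (w : Fin L → Fin N), ¬ HasPattern w (fun i => Fin.rev (u i)) ∧
        ¬ HasPattern w (fun i => Fin.rev (v i)) ∧ ∀ A ∈ F, ∃ σ ∈ A, Spells w σ := by
    rintro F u v ⟨L, w, h1, h2, h3⟩
    refine ⟨L, fun l => Fin.rev (w l), fun h => h1 ?_, fun h => h2 ?_, ?_⟩
    · have := hasPattern_rev_comp w _ h
      simpa using this
    · have := hasPattern_rev_comp w _ h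
      simpa using this
    · intro A hA
      obtain ⟨σ, hσ, h4⟩ := h3 _ ⟨A, hA, rfl⟩
      obtain ⟨τ, hτ, rfl⟩ := hσ
      exact ⟨τ, hτ, spells_revPos w τ h4⟩
  rcases hu with rfl | rfl <;> rcases hv with rfl | rfl
  · exact first_class F h
  · have := tp F _ _ (tv (revPos F) _ _ (first_class _ (expo_revVal _ (expo_revPos _ h))))
    rw [e5, e6] at this
    exact this
  · have := tv F _ _ (first_class _ (expo_revVal _ h))
    rw [e1, e2] at this
    exact this
  · have := tp F _ _ (first_class _ (expo_revPos _ h))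
    rw [e3, e4] at this
    exact this

end Pool.Agent.Work.MP_8eaa9c_co
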